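import Mathlib
import Pool.Agent.H68.BW.Asymp

/-!
# MP_11a02e_co: the exact asymptotic bandwidth of `G_{n,k,b}` for linear `b`

`H68.BW.verts n k b` is the set of the `k`-element subsets `X` of `{0,…,n}` with
`max X - min X ≤ b`, `H68.BW.G n k b` is the graph `G_{n,k,b}` on it and `H68.BW.bandwidth` is the
bandwidth of a finite graph (all three in `Pool/Agent/H68/BW/Upper.lean`).

For every fixed `k ≥ 2`, every `β ∈ (0, 1/2]` and every integer sequence `b ∼ β n` we prove
`B(G_{n,k,b}) ∼ max {c₁, c₂ + q^{-(k-1)} c₃} n^k`: the known lower bound is sharp.  For every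
exceptional `β` and every `k ≥ 2` this is smaller than `(c₂ + c₃) n^k`.

Upper bound: by Hall's theorem for intervals a numbering of width `w` exists as soon as a monotone
`h` satisfies finitely many difference constraints; these are solved by an explicit potential.
-/

open Finset Filter Topology

namespace Pool.Agent.Results.MP_11a02e_co.ExactBandwidth

open H68.BW

/-- The constant `c₁`. -/
noncomputable def c1 (k q : ℕ) (β : ℝ) : ℝ :=
  β ^ k / k.factorial * (k - (k - 1) / q)

/-- The constant `c₂`. -/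
noncomputable def c2 (k q : ℕ) (β : ℝ) : ℝ :=
  β ^ (k - 1) / ((q + 1) * k.factorial) * (k - (k - 1) * β)

/-- The constant `c₃`. -/
noncomputable def c3 (k q : ℕ) (β r : ℝ) : ℝ :=
  (β - r) ^ k / ((q + 1) * k.factorial) * (q : ℝ) ^ (k - 1)

theorem val_L1 (k q : ℕ) (β : ℝ) (hk : 2 ≤ k) (hq : 2 ≤ q) :
    (β ^ k / k.factorial + (q * β - β) * (β ^ (k - 1) / (k - 1).factorial) - 0) / q =
      c1 k q β := by
  obtain ⟨j, rfl⟩ := Nat.exists_eq_add_of_le' (show 1 ≤ k by omega)
  have hq0 : (q : ℝ) ≠ 0 := by positivity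
  have hj : ((j.factorial : ℕ) : ℝ) ≠ 0 := by positivity
  have hj1 : ((j : ℝ) + 1) ≠ 0 := by positivity
  rw [c1, Nat.add_sub_cancel, Nat.factorial_succ]
  push_cast
  field_simp
  ring

theorem val_L2 (k q : ℕ) (β r : ℝ) (hk : 2 ≤ k) (hq : 2 ≤ q) :
    ((β ^ k / k.factorial + (1 - β) * (β ^ (k - 1) / (k - 1).factorial)) +
      (β - r) ^ k / k.factorial - 0) / (q + 1) = c2 k q β + c3 k q β r / (q : ℝ) ^ (k - 1) := by
  obtain ⟨j, rfl⟩ := Nat.exists_eq_add_of_le' (show 1 ≤ k by omega)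
  have hq0 : (q : ℝ) ≠ 0 := by positivity
  have hq1 : ((q : ℝ) + 1) ≠ 0 := by positivity
  have hj : ((j.factorial : ℕ) : ℝ) ≠ 0 := by positivity
  have hj1 : ((j : ℝ) + 1) ≠ 0 := by positivity
  rw [c2, c3, Nat.add_sub_cancel, Nat.factorial_succ]
  push_cast
  field_simp
  ring

theorem val_U1 (k q : ℕ) (β : ℝ) (hk : 2 ≤ k) (hq : 2 ≤ q) :
    β ^ k / k.factorial + ((q : ℝ) - 1) * Phi k β β / q = c1 k q β := by
  rw [← val_L1 k q β hk hq, Phi, sub_self, max_self, zero_pow (by omega)]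
  obtain ⟨j, rfl⟩ := Nat.exists_eq_add_of_le' (show 1 ≤ k by omega)
  have hq0 : (q : ℝ) ≠ 0 := by positivity
  have hj : ((j.factorial : ℕ) : ℝ) ≠ 0 := by positivity
  have hj1 : ((j : ℝ) + 1) ≠ 0 := by positivity
  rw [Nat.add_sub_cancel, Nat.factorial_succ]
  push_cast
  field_simp
  ring

theorem val_U2 (k q : ℕ) (β r : ℝ) (hk : 2 ≤ k) (hq : 2 ≤ q) (h1 : 1 = q * β + r)
    (hrb : r < β) :
    β ^ k / k.factorial + (((q : ℝ) - 1) * Phi k β β + Phi k β r) / (q + 1) =
      c2 k q β + c3 k q β r / (q : ℝ) ^ (k - 1) := by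
  rw [← val_L2 k q β r hk hq, Phi, Phi, sub_self, max_self, zero_pow (by omega),
    max_eq_left (by linarith)]
  obtain ⟨j, rfl⟩ := Nat.exists_eq_add_of_le' (show 1 ≤ k by omega)
  have hq0 : (q : ℝ) ≠ 0 := by positivity
  have hq1 : ((q : ℝ) + 1) ≠ 0 := by positivity
  have hj : ((j.factorial : ℕ) : ℝ) ≠ 0 := by positivity
  have hj1 : ((j : ℝ) + 1) ≠ 0 := by positivity
  have hr : r = 1 - q * β := by linarith
  subst hr
  rw [Nat.add_sub_cancel, Nat.factorial_succ]
  push_cast
  field_simp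
  ring

/-- **The exact asymptotics of the bandwidth.** -/
theorem limit (k q : ℕ) (β r : ℝ) (hk : 2 ≤ k) (hq : 2 ≤ q) (h1 : 1 = q * β + r) (hr : 0 ≤ r)
    (hrb : r < β) (b : ℕ → ℕ)
    (hb : Tendsto (fun n : ℕ => (b n : ℝ) / (β * n)) atTop (𝓝 1)) :
    Tendsto (fun n : ℕ => (bandwidth (G n k (b n)) : ℝ) / (n : ℝ) ^ k) atTop
      (𝓝 (max (c1 k q β) (c2 k q β + c3 k q β r / (q : ℝ) ^ (k - 1)))) := by
  have hβ : 0 < β := lt_of_le_of_lt hr hrb
  have hq2 : (2 : ℝ) ≤ q := by exact_mod_cast hq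
  have hk1 : 1 ≤ k := by omega
  have hq1 : 1 ≤ q := by omega
  have hb' : Tendsto (fun n : ℕ => (b n : ℝ) / (n : ℝ)) atTop (𝓝 β) := by
    have := hb.const_mul β
    rw [mul_one] at this
    refine this.congr fun n => ?_
    rw [← mul_div_assoc, mul_div_mul_left _ _ hβ.ne']
  have hβ1 : β < 1 := by nlinarith
  -- eventual inequalities
  have e1 : ∀ᶠ n : ℕ in atTop, b n ≤ n := by
    filter_upwards [hb'.eventually_lt_const hβ1, eventually_gt_atTop 0] with n hn hn0
    have hn0' : (0 : ℝ) < n := by exact_mod_cast hn0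
    rw [div_lt_one hn0'] at hn
    exact_mod_cast hn.le
  have e2 : ∀ K : ℝ, ∀ᶠ n : ℕ in atTop, (n : ℝ) + K ≤ (q + 1) * b n := by
    intro K
    have hs : (1 : ℝ) / (q + 1) < β := by
      rw [div_lt_iff₀ (by positivity)]
      nlinarith
    obtain ⟨s, hs1, hs2⟩ := exists_between hs
    rw [div_lt_iff₀ (by positivity)] at hs1
    have hc : 0 < s * (q + 1) - 1 := by linarith
    filter_upwards [hb'.eventually_const_lt hs2, eventually_gt_atTop 0,
      eventually_ge_atTop ⌈K / (s * (q + 1) - 1)⌉₊] with n hn hn0 hnK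
    have hn0' : (0 : ℝ) < n := by exact_mod_cast hn0
    rw [lt_div_iff₀ hn0'] at hn
    have h2 : K / (s * (q + 1) - 1) ≤ n := (Nat.le_ceil _).trans (by exact_mod_cast hnK)
    rw [div_le_iff₀ hc] at h2
    have hqq : (0 : ℝ) < (q : ℝ) + 1 := by positivity
    nlinarith
  have e3 : ∀ᶠ n : ℕ in atTop, k ≤ b n := by
    filter_upwards [e2 ((q + 1) * k)] with n hn
    have hqq : (0 : ℝ) < (q : ℝ) + 1 := by positivity
    have hn0 : (0 : ℝ) ≤ n := by positivity
    have : (k : ℝ) ≤ b n := by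
      by_contra hcon
      push Not at hcon
      nlinarith
    exact_mod_cast this
  have e4 : ∀ᶠ n : ℕ in atTop, n - q * b n ≤ b n := by
    filter_upwards [e2 0] with n hn
    have : n ≤ (q + 1) * b n := by
      have h : (n : ℝ) ≤ (q + 1) * b n := by linarith
      exact_mod_cast h
    rw [add_mul, one_mul] at this
    omega
  have e5 : ∀ᶠ n : ℕ in atTop, n - sp k (b n) q + (k - 1) ≤ b n := by
    filter_upwards [e2 (q * k + k), e3] with n hn hn3
    have h : n + (q * k + k) ≤ (q + 1) * b n := by exact_mod_cast hn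
    have h2 : q * b n ≤ q * (b n + 1 - k) + q * k := by
      rw [← mul_add]
      exact Nat.mul_le_mul_left q (by omega)
    rw [add_mul, one_mul] at h
    unfold sp
    omega
  -- auxiliary limits
  have hid : Tendsto (fun n : ℕ => (n : ℝ) / (n : ℝ)) atTop (𝓝 1) := by
    refine tendsto_const_nhds.congr' ?_
    filter_upwards [eventually_gt_atTop 0] with n hn
    rw [div_self (by exact_mod_cast hn.ne')]
  have hsp : Tendsto (fun n : ℕ => (sp k (b n) q : ℝ) / (n : ℝ)) atTop (𝓝 (q * β)) := by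
    have hqb : Tendsto (fun n : ℕ => ((q : ℝ) * b n) / (n : ℝ)) atTop (𝓝 (q * β)) := by
      refine (hb'.const_mul (q : ℝ)).congr fun n => ?_
      ring
    apply tendsto_close (q * k + q + k) hqb
    intro n
    have h2 : q * b n ≤ sp k (b n) q + q * k := by
      have : q * b n ≤ q * (b n + 1 - k) + q * k := by
        rw [← mul_add]
        exact Nat.mul_le_mul_left q (by omega)
      unfold sp
      omega
    have h3 : sp k (b n) q ≤ q * b n + q + k := by
      have : q * (b n + 1 - k) ≤ q * (b n + 1) := Nat.mul_le_mul_left q (by omega)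
      rw [mul_add, mul_one] at this
      unfold sp
      omega
    have h2' : (q : ℝ) * b n ≤ sp k (b n) q + q * k := by exact_mod_cast h2
    have h3' : (sp k (b n) q : ℝ) ≤ q * b n + q + k := by exact_mod_cast h3
    have hk0 : (0 : ℝ) ≤ k := by positivity
    have hq0 : (0 : ℝ) ≤ q := by positivity
    have hqk : (0 : ℝ) ≤ q * k := by positivity
    rw [abs_le]
    constructor <;> linarith
  have hmin : Tendsto (fun n : ℕ => ((min n (sp k (b n) q) : ℕ) : ℝ) / (n : ℝ)) atTop
      (𝓝 (q * β)) := by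
    have := hid.min hsp
    rw [min_eq_right (by linarith)] at this
    refine this.congr fun n => ?_
    rw [Nat.cast_min, min_div_div_right (Nat.cast_nonneg n)]
  have hrr : Tendsto (fun n : ℕ => ((n - sp k (b n) q : ℕ) : ℝ) / (n : ℝ)) atTop (𝓝 r) := by
    have := tendsto_sub hid hsp
    rwa [max_eq_left (by linarith), show 1 - q * β = r by linarith] at this
  -- the lower bounds
  have hL1 := ((tendsto_Wd_ge hmin hb' k hk1 (by
    filter_upwards [e1, e3] with n hn hn3
    exact le_min hn (le_sp hk1 (by omega) hq1)) (by nlinarith)).sub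
      (tendsto_inv_pow k hk1 1)).div_const (q : ℝ)
  have hL2 := (((tendsto_Wd_ge hid hb' k hk1 e1 hβ1.le).add
    (tendsto_choose (tendsto_add_one (tendsto_sub hb' hrr)) k)).sub
      (tendsto_inv_pow k hk1 2)).div_const ((q : ℝ) + 1)
  rw [val_L1 k q β hk hq] at hL1
  rw [max_eq_left (by linarith), val_L2 k q β r hk hq] at hL2
  have hU := tendsto_upper hb' k hk1 hq1 h1 hr
  rw [add_zero, ← max_add_add_left, val_U1 k q β hk hq, val_U2 k q β r hk hq h1 hrb] at hU
  refine tendsto_of_tendsto_of_tendsto_of_le_of_le' (hL1.max hL2) hU ?_ ?_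
  · filter_upwards [e1, e3, e5, eventually_gt_atTop 0] with n h1 h3 h5 h0
    have hn : (0 : ℝ) < (n : ℝ) ^ k := by positivity
    apply max_le
    · have hlow := lower_one (n := n) (b := b n) (q := q) hk1 (by omega) hq1
        (min_le_left n (sp k (b n) q)) (min_le_right _ _)
      have hlow' : (Wd k (b n) (min n (sp k (b n) q)) : ℝ) ≤
          q * bandwidth (G n k (b n)) + 1 := by exact_mod_cast hlow
      rw [← sub_div, div_div, div_le_div_iff₀ (by positivity) hn]
      have hqn : (0 : ℝ) < q := by positivity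
      nlinarith [mul_le_mul_of_nonneg_right hlow' hn.le]
    · have hlow := lower_two (n := n) (b := b n) (q := q) hk1 (by omega) hq1 h1 h5
      have hlow' : (Wd k (b n) n : ℝ) + ((b n - (n - sp k (b n) q) + 1).choose k : ℝ) ≤
          (q + 1) * bandwidth (G n k (b n)) + 2 := by exact_mod_cast hlow
      rw [← add_div, ← sub_div, div_div, div_le_div_iff₀ (by positivity) hn]
      nlinarith [mul_le_mul_of_nonneg_right hlow' hn.le]
  · filter_upwards [e1, e3, e4, eventually_gt_atTop 0] with n h1 h3 h4 h0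
    have hn : (0 : ℝ) < (n : ℝ) ^ k := by positivity
    apply div_le_div_of_nonneg_right _ hn.le
    have hup := bandwidth_le_ceil n k (b n) q (n - q * b n) hk1 (by omega) hq1 h4 (by omega) h1
    have hpb : 0 ≤ phi k (b n) (b n) := by
      have := phi_mono k (b n) hk1 0 (b n) (by omega) le_rfl
      rwa [phi_zero] at this
    have hM0 : 0 ≤ Mx k (b n) q (n - q * b n) := by
      refine le_trans ?_ (le_max_left _ _)
      exact div_nonneg (mul_nonneg (by linarith) hpb) (by positivity)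
    have hceil := (Nat.ceil_lt_add_one (a := ((b n + 1).choose k : ℝ) +
      Mx k (b n) q (n - q * b n)) (by positivity)).le
    have hup' : (bandwidth (G n k (b n)) : ℝ) ≤
      (⌈((b n + 1).choose k : ℝ) + Mx k (b n) q (n - q * b n)⌉₊ : ℝ) := by exact_mod_cast hup
    exact hup'.trans hceil

theorem bernoulli_strict (k : ℕ) (hk : 2 ≤ k) (t : ℝ) (h0 : 0 < t) (h1 : t < 1) :
    0 < t ^ k - k * t + (k - 1) := by
  induction k, hk using Nat.le_induction with
  | base =>
    push_cast
    nlinarith [sq_nonneg (1 - t), mul_pos (sub_pos.2 h1) (sub_pos.2 h1)]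
  | succ k hk ih =>
    have h2 : (2 : ℝ) ≤ k := by exact_mod_cast hk
    have h3 := mul_pos h0 ih
    have h4 := mul_pos (mul_pos (show (0 : ℝ) < k by linarith) (sub_pos.2 h1)) (sub_pos.2 h1)
    push_cast
    rw [pow_succ]
    nlinarith

theorem strict (k q : ℕ) (β r : ℝ) (hk : 2 ≤ k) (hq : 2 ≤ q) (h1 : 1 = q * β + r) (hr : 0 ≤ r)
    (hrb : r < β) (hexc : ((q : ℝ) - 1) / ((q : ℝ) ^ 2 + q - 1) < r) :
    max (c1 k q β) (c2 k q β + c3 k q β r / (q : ℝ) ^ (k - 1)) < c2 k q β + c3 k q β r := by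
  have hβ : 0 < β := lt_of_le_of_lt hr hrb
  have hq2 : (2 : ℝ) ≤ q := by exact_mod_cast hq
  have hden : (0 : ℝ) < (q : ℝ) ^ 2 + q - 1 := by nlinarith
  rw [div_lt_iff₀ hden] at hexc
  have hc3 : 0 < c3 k q β r := by
    unfold c3
    have : 0 < β - r := by linarith
    positivity
  apply max_lt
  · -- `t = q (β - r) / β`
    set t := q * (β - r) / β with ht
    have ht0 : 0 < t := by
      have : 0 < β - r := by linarith
      positivity
    have ht1 : t < 1 := by
      rw [ht, div_lt_one hβ]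
      nlinarith
    have hB := bernoulli_strict k hk t ht0 ht1
    have key : c2 k q β + c3 k q β r - c1 k q β =
        β ^ k / (k.factorial * (q + 1) * q) * (t ^ k - k * t + (k - 1)) := by
      obtain ⟨j, rfl⟩ := Nat.exists_eq_add_of_le' (show 1 ≤ k by omega)
      have hq0 : (q : ℝ) ≠ 0 := by positivity
      have hq1 : ((q : ℝ) + 1) ≠ 0 := by positivity
      have hj : ((j.factorial : ℕ) : ℝ) ≠ 0 := by positivity
      have hj1 : ((j : ℝ) + 1) ≠ 0 := by positivity
      have hr' : r = 1 - q * β := by linarith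
      rw [c1, c2, c3, Nat.add_sub_cancel, Nat.factorial_succ, ht, div_pow, mul_pow]
      subst hr'
      push_cast
      field_simp
      ring
    have hpos : 0 < β ^ k / (k.factorial * (q + 1) * q) * (t ^ k - k * t + (k - 1)) := by
      apply mul_pos _ hB
      positivity
    linarith
  · have hqp : 1 < (q : ℝ) ^ (k - 1) := one_lt_pow₀ (by linarith) (by omega)
    have : c3 k q β r / (q : ℝ) ^ (k - 1) < c3 k q β r := div_lt_self hc3 hqp
    linarith

/-- **MP_11a02e_co, Q1: the exact answer.** Let `k ≥ 2`, `q ≥ 2`, `1 = q β + r`, `0 ≤ r < β`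
(so `0 < β ≤ 1/2`; all such `β` occur). For every integer sequence `b ∼ β n`,
`B(G_{n,k,b}) / n^k → max {c₁, c₂ + q^{-(k-1)} c₃}`. If `β` is exceptional, then this limit is
smaller than `c₂ + c₃`, so the asymptotics asked for in Q1 fail for every `k ≥ 2`, every
exceptional `β` and every `b ∼ β n`. -/
theorem result (k q : ℕ) (β r : ℝ) (hk : 2 ≤ k) (hq : 2 ≤ q) (h1 : 1 = q * β + r) (hr : 0 ≤ r)
    (hrb : r < β) (b : ℕ → ℕ)
    (hb : Tendsto (fun n : ℕ => (b n : ℝ) / (β * n)) atTop (𝓝 1)) :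
    Tendsto (fun n : ℕ => (bandwidth (G n k (b n)) : ℝ) / (n : ℝ) ^ k) atTop
      (𝓝 (max (c1 k q β) (c2 k q β + c3 k q β r / (q : ℝ) ^ (k - 1)))) ∧
    (((q : ℝ) - 1) / ((q : ℝ) ^ 2 + q - 1) < r →
      max (c1 k q β) (c2 k q β + c3 k q β r / (q : ℝ) ^ (k - 1)) < c2 k q β + c3 k q β r ∧
      ¬ Tendsto (fun n : ℕ => (bandwidth (G n k (b n)) : ℝ) / (n : ℝ) ^ k) atTop
        (𝓝 (c2 k q β + c3 k q β r))) := by
  have hlim := limit k q β r hk hq h1 hr hrb b hb
  refine ⟨hlim, fun hexc => ?_⟩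
  have hs := strict k q β r hk hq h1 hr hrb hexc
  exact ⟨hs, fun h => hs.ne (tendsto_nhds_unique hlim h)⟩

end Pool.Agent.Results.MP_11a02e_co.ExactBandwidth
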